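import Pool.Agent.Y744.NB.Stm

/-!
# Project NB (helper744, MP_360b3f_an): job ODE2, a superlinear differential inequality
(helper446)
-/

set_option autoImplicit false

open MeasureTheory Set Filter Topology Metric

namespace Pool.Agent.Y446.NB.ODE2

open Pool.Agent.Y744.NB

/-- a function that is Lipschitz on a set composed with an absolutely continuous function with
values in that set -/
lemma ac_comp {w H : ℝ → ℝ} {a b C : ℝ} {S : Set ℝ} (hC : 0 ≤ C)
    (hw : AbsolutelyContinuousOnInterval w a b) (hS : ∀ t ∈ uIcc a b, w t ∈ S)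
    (hH : ∀ x ∈ S, ∀ y ∈ S, |H x - H y| ≤ C * |x - y|) :
    AbsolutelyContinuousOnInterval (fun t => H (w t)) a b := by
  rw [absolutelyContinuousOnInterval_iff] at hw ⊢
  intro ε hε
  obtain ⟨δ, hδ, h⟩ := hw (ε / (C + 1)) (by positivity)
  refine ⟨δ, hδ, fun E hE hlen => ?_⟩
  have h1 := h E hE hlen
  have h2 : ∑ i ∈ Finset.range E.1, dist (H (w (E.2 i).1)) (H (w (E.2 i).2))
      ≤ C * ∑ i ∈ Finset.range E.1, dist (w (E.2 i).1) (w (E.2 i).2) := by
    rw [Finset.mul_sum]
    refine Finset.sum_le_sum fun i hi => ?_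
    have := hE.1 i (by simpa using hi)
    rw [Real.dist_eq, Real.dist_eq]
    exact hH _ (hS _ this.1) _ (hS _ this.2)
  have h3 : 0 ≤ ∑ i ∈ Finset.range E.1, dist (w (E.2 i).1) (w (E.2 i).2) :=
    Finset.sum_nonneg fun _ _ => dist_nonneg
  have h4 : (C + 1) * (ε / (C + 1)) = ε := by field_simp
  calc _ ≤ C * ∑ i ∈ Finset.range E.1, dist (w (E.2 i).1) (w (E.2 i).2) := h2
    _ ≤ (C + 1) * ∑ i ∈ Finset.range E.1, dist (w (E.2 i).1) (w (E.2 i).2) := by nlinarith
    _ < (C + 1) * (ε / (C + 1)) := by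
        exact mul_lt_mul_of_pos_left h1 (by positivity)
    _ = ε := h4

/-- **Job ODE2.** -/
theorem t : S_ODE2 := by
  intro f a k τ T A w g p hf ha hf0 hfp hint hk hkr hτ hτT hkτ haA hA hg hw hpm hp hae
  have hT : 0 < T := lt_of_lt_of_le hτ hτT
  have hA0 : 0 < A := by linarith
  -- continuity of w on [0,T]
  have hsub : ∀ {c d : ℝ}, 0 ≤ c → c ≤ d → d ≤ T → IntervalIntegrable g volume c d := by
    intro c d hc hcd hd
    refine hg.mono_set ?_
    rw [uIcc_of_le hcd, uIcc_of_le hT.le]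
    exact Icc_subset_Icc hc hd
  have hcw : ContinuousOn w (Icc 0 T) := by
    have h1 : ContinuousOn (fun t => A + ∫ s in (0:ℝ)..t, g s) (Icc 0 T) := by
      have := intervalIntegral.continuousOn_primitive_interval (f := g) (a := 0) (b := T)
        (μ := volume) (by
          rw [uIcc_of_le hT.le, integrableOn_Icc_iff_integrableOn_Ioc]
          rw [intervalIntegrable_iff_integrableOn_Ioc_of_le hT.le] at hg
          exact hg)
      rw [uIcc_of_le hT.le] at this
      exact continuousOn_const.add this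
    exact h1.congr hw
  have hdiff : ∀ c d : ℝ, 0 ≤ c → c ≤ d → d ≤ T → w d = w c + ∫ s in c..d, g s := by
    intro c d hc hcd hd
    rw [hw c ⟨hc, hcd.trans hd⟩, hw d ⟨hc.trans hcd, hd⟩, add_assoc,
      intervalIntegral.integral_add_adjacent_intervals (hsub le_rfl hc (hcd.trans hd))
        (hsub hc hcd hd)]
  have hw0 : w 0 = A := by
    rw [hw 0 ⟨le_rfl, hT.le⟩]; simp
  -- step 1: lower bound
  have hlow : ∀ t1 ∈ Icc 0 τ, A / 2 ≤ w t1 := by
    intro t1 ht1
    by_contra hcon
    push Not at hcon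
    have ht1T : t1 ≤ T := ht1.2.trans hτT
    have hcpt : IsCompact (Icc 0 t1 ∩ {t | A ≤ w t}) := by
      have hc : ContinuousOn w (Icc 0 t1) := hcw.mono (Icc_subset_Icc le_rfl ht1T)
      have := hc.preimage_isClosed_of_isClosed isClosed_Icc (isClosed_Ici (a := A))
      exact isCompact_Icc.of_isClosed_subset this inter_subset_left
    obtain ⟨t', ht', hmax⟩ := hcpt.exists_isGreatest ⟨0, ⟨⟨le_rfl, ht1.1⟩, hw0.ge⟩⟩
    have ht'1 : t' ≤ t1 := ht'.1.2
    have ht'0 : 0 ≤ t' := ht'.1.1
    have hlt : ∀ s ∈ Ioc t' t1, w s < A := by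
      intro s hs
      by_contra hc
      push Not at hc
      have := hmax ⟨⟨ht'0.trans hs.1.le, hs.2⟩, hc⟩
      exact absurd hs.1 (not_lt.2 this)
    have h1 : (∫ s in t'..t1, (-(k * A) : ℝ)) ≤ ∫ s in t'..t1, g s := by
      refine intervalIntegral.integral_mono_ae_restrict ht'1 (by simp) (hsub ht'0 ht'1 ht1T) ?_
      rw [EventuallyLE, ae_restrict_iff' measurableSet_Icc]
      have hne : ∀ᵐ s : ℝ, s ≠ t' := by
        simp [ae_iff, measure_singleton]
      filter_upwards [hae, hne] with s hs hs' hsm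
      have hsT : s ∈ Icc 0 T := ⟨ht'0.trans hsm.1, hsm.2.trans ht1T⟩
      obtain ⟨hs1, hs2⟩ := hs hsT
      have hsA := hlt s ⟨lt_of_le_of_ne hsm.1 (Ne.symm hs'), hsm.2⟩
      have h3 : 0 ≤ p s * f (w s) := mul_nonneg (hp s hsT).1 (hf0 _)
      have h4 : k * w s ≤ k * A := mul_le_mul_of_nonneg_left hsA.le hk
      linarith
    rw [intervalIntegral.integral_const, smul_eq_mul] at h1
    have h2 := hdiff t' t1 ht'0 ht'1 ht1T
    have h3 : (t1 - t') * (k * A) ≤ τ * (k * A) :=
      mul_le_mul_of_nonneg_right (by linarith [ht1.2]) (by positivity)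
    have h4 : τ * (k * A) ≤ A / 2 := by nlinarith
    have h5 : A ≤ w t' := ht'.2
    linarith
  -- step 2
  set F : ℝ → ℝ := fun r => 1 / f (max r a) with hF
  have hFpos : ∀ r, 0 < f (max r a) := fun r => hfp _ (le_max_right _ _)
  have hFc : Continuous F := by
    have : Continuous fun r => f (max r a) := hf.comp (continuous_id.max continuous_const)
    exact continuous_const.div this fun r => (hFpos r).ne'
  have hFnn : ∀ r, 0 ≤ F r := fun r => by
    have := hFpos r
    positivity
  set η : ℝ → ℝ := fun U => ∫ r in A..U, F r with hη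
  have hηd : ∀ U, HasDerivAt η (F U) U := fun U =>
    intervalIntegral.integral_hasDerivAt_right (hFc.intervalIntegrable _ _)
      (hFc.stronglyMeasurableAtFilter _ _) hFc.continuousAt
  have hηle : ∀ U, η U ≤ ∫ r in Ioi A, 1 / f r := by
    have hI : 0 ≤ ∫ r in Ioi A, 1 / f r :=
      setIntegral_nonneg measurableSet_Ioi fun r _ => by
        have := hf0 r
        positivity
    intro U
    rcases le_total U A with hU | hU
    · have : η U ≤ 0 := by
        simp only [hη]
        rw [intervalIntegral.integral_symm]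
        have : 0 ≤ ∫ r in U..A, F r := intervalIntegral.integral_nonneg hU fun r _ => hFnn r
        linarith
      linarith
    · simp only [hη]
      rw [intervalIntegral.integral_of_le hU]
      have e1 : ∫ r in Ioc A U, F r = ∫ r in Ioc A U, 1 / f r := by
        refine setIntegral_congr_fun measurableSet_Ioc fun r hr => ?_
        have : max r a = r := max_eq_left (by linarith [hr.1])
        simp only [hF, this]
      rw [e1]
      refine setIntegral_mono_set (hint.mono_set (Ioi_subset_Ioi (by linarith))) ?_ ?_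
      · refine Eventually.of_forall fun r => ?_
        have := hf0 r
        simp only [Pi.zero_apply]
        positivity
      · exact (Ioc_subset_Ioi_self).eventuallyLE
  -- bounds on the range
  obtain ⟨W, hW⟩ : ∃ W, ∀ t ∈ Icc 0 T, w t ≤ W := by
    obtain ⟨W, hW⟩ := (isCompact_Icc.image_of_continuousOn hcw).bddAbove
    exact ⟨W, fun t ht => hW ⟨t, ht, rfl⟩⟩
  obtain ⟨C, hC⟩ : ∃ C, ∀ r ∈ Icc a W, F r ≤ C := by
    obtain ⟨C, hC⟩ :=
      ((isCompact_Icc (a := a) (b := W)).image_of_continuousOn hFc.continuousOn).bddAbove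
    exact ⟨C, fun t ht => hC ⟨t, ht, rfl⟩⟩
  have haW : a ≤ W := by
    have := hW 0 ⟨le_rfl, hT.le⟩
    rw [hw0] at this
    linarith
  have hC0 : 0 ≤ C := (hFnn a).trans (hC a ⟨le_rfl, haW⟩)
  have hLip : ∀ x ∈ Icc a W, ∀ y ∈ Icc a W, |η x - η y| ≤ C * |x - y| := by
    intro x hx y hy
    have e1 : η x - η y = ∫ r in y..x, F r := by
      simp only [hη]
      rw [intervalIntegral.integral_interval_sub_left (hFc.intervalIntegrable _ _)
        (hFc.intervalIntegrable _ _)]
    rw [e1, ← Real.norm_eq_abs]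
    refine intervalIntegral.norm_integral_le_of_norm_le_const fun r hr => ?_
    rw [Real.norm_eq_abs, abs_of_nonneg (hFnn r)]
    refine hC r ?_
    have := uIoc_subset_uIcc hr
    exact (uIcc_subset_Icc hy hx) this
  -- absolutely continuous
  have hwAC : AbsolutelyContinuousOnInterval w 0 τ := by
    have h1 : AbsolutelyContinuousOnInterval (fun t => ∫ s in (0:ℝ)..t, g s) 0 τ :=
      (hsub le_rfl hτ.le hτT).absolutelyContinuousOnInterval_intervalIntegral (c := 0) (by simp)
    rw [absolutelyContinuousOnInterval_iff] at h1 ⊢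
    intro ε hε
    obtain ⟨δ, hδ, h⟩ := h1 ε hε
    refine ⟨δ, hδ, fun E hE hlen => ?_⟩
    refine lt_of_le_of_lt (le_of_eq ?_) (h E hE hlen)
    refine Finset.sum_congr rfl fun i hi => ?_
    have h2 := hE.1 i (by simpa using hi)
    have h3 : ∀ {z : ℝ}, z ∈ uIcc 0 τ → z ∈ Icc 0 T := by
      intro z hz
      rw [uIcc_of_le hτ.le] at hz
      exact ⟨hz.1, hz.2.trans hτT⟩
    rw [Real.dist_eq, Real.dist_eq, hw _ (h3 h2.1), hw _ (h3 h2.2)]
    congr 1
    ring
  have hAC : AbsolutelyContinuousOnInterval (fun t => η (w t)) 0 τ := by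
    refine ac_comp hC0 hwAC (S := Icc a W) (fun t ht => ?_) hLip
    rw [uIcc_of_le hτ.le] at ht
    exact ⟨by linarith [hlow t ht], hW t ⟨ht.1, ht.2.trans hτT⟩⟩
  have hFTC := hAC.integral_deriv_eq_sub
  have hηA : η (w 0) = 0 := by simp [hη, hw0]
  have hpI : IntervalIntegrable p volume 0 τ := by
    rw [intervalIntegrable_iff_integrableOn_Ioc_of_le hτ.le]
    refine Measure.integrableOn_of_bounded (M := 1) (by simp) hpm.aestronglyMeasurable ?_
    rw [ae_restrict_iff' measurableSet_Ioc]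
    refine Eventually.of_forall fun s hs => ?_
    have := hp s ⟨hs.1.le, hs.2.trans hτT⟩
    rw [Real.norm_eq_abs, abs_of_nonneg this.1]
    exact this.2
  have hder : ∀ᵐ s : ℝ, s ∈ Icc 0 τ → p s - 1 / 8 ≤ deriv (fun t => η (w t)) s := by
    have h1 := hg.ae_hasDerivAt_integral
    have hne : ∀ᵐ s : ℝ, s ≠ 0 := by simp [ae_iff, measure_singleton]
    have hne' : ∀ᵐ s : ℝ, s ≠ T := by simp [ae_iff, measure_singleton]
    filter_upwards [h1, hne, hne', hae] with s hs1 hs2 hs3 hs4 hs
    have hsT : s ∈ Icc 0 T := ⟨hs.1, hs.2.trans hτT⟩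
    have hsI : s ∈ Ioo 0 T := ⟨lt_of_le_of_ne hs.1 (Ne.symm hs2), lt_of_le_of_ne hsT.2 hs3⟩
    have hd1 : HasDerivAt (fun t => ∫ x in (0:ℝ)..t, g x) (g s) s :=
      hs1 (by rw [uIcc_of_le hT.le]; exact hsT) 0 (by simp)
    have hd2 : HasDerivAt w (g s) s := by
      refine (hd1.const_add A).congr_of_eventuallyEq ?_
      filter_upwards [Ioo_mem_nhds hsI.1 hsI.2] with t ht
      exact hw t ⟨ht.1.le, ht.2.le⟩
    have hd3 : HasDerivAt (fun t => η (w t)) (F (w s) * g s) s := (hηd (w s)).comp s hd2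
    rw [hd3.deriv]
    obtain ⟨hs5, hs6⟩ := hs4 hsT
    have hwa : a ≤ w s := by linarith [hlow s hs]
    have hFs : F (w s) = 1 / f (w s) := by simp only [hF, max_eq_left hwa]
    have hfw : 0 < f (w s) := hfp _ hwa
    rw [hFs, div_mul_eq_mul_div, one_mul, le_div_iff₀ hfw]
    have := hkr (w s) hwa
    nlinarith
  have hmono : (∫ s in (0:ℝ)..τ, (p s - 1 / 8)) ≤ ∫ s in (0:ℝ)..τ, deriv (fun t => η (w t)) s := by
    refine intervalIntegral.integral_mono_ae_restrict hτ.le (hpI.sub (by simp))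
      hAC.intervalIntegrable_deriv ?_
    rw [EventuallyLE, ae_restrict_iff' measurableSet_Icc]
    exact hder
  rw [hFTC, hηA, intervalIntegral.integral_sub hpI (by simp), intervalIntegral.integral_const,
    smul_eq_mul] at hmono
  have := hηle (w τ)
  linarith

end Pool.Agent.Y446.NB.ODE2
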